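import Mathlib

set_option autoImplicit false

/-!
# Chains in hyperbolic spaces

Elementary estimates on Gromov products of quasi-geodesic chains in a space which is hyperbolic in
the sense of the four point condition at one base point.
-/

namespace Pool.Agent.Helper58.QS

section gp

variable {Y : Type*} [PseudoMetricSpace Y]

/-- The Gromov product. -/
noncomputable def gp (p x y : Y) : ℝ := (dist p x + dist p y - dist x y) / 2

theorem gp_comm (p x y : Y) : gp p x y = gp p y x := by
  unfold gp
  rw [dist_comm x y]; ring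

theorem gp_nonneg (p x y : Y) : 0 ≤ gp p x y := by
  unfold gp
  have := dist_triangle x p y
  rw [dist_comm x p] at this
  linarith

theorem gp_le_left (p x y : Y) : gp p x y ≤ dist p x := by
  unfold gp
  have := dist_triangle p x y
  linarith

theorem gp_le_right (p x y : Y) : gp p x y ≤ dist p y := by
  rw [gp_comm]; exact gp_le_left p y x

theorem gp_step (p x y : Y) : dist p x - dist x y ≤ gp p x y := by
  unfold gp
  have := dist_triangle p y x
  rw [dist_comm y x] at this
  linarith

theorem gp_self (p x : Y) : gp p x x = dist p x := by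
  unfold gp; simp

/-- Four point condition at the base point `p`. -/
def Hyp (p : Y) (δ : ℝ) : Prop := ∀ x y z, min (gp p x y) (gp p y z) - δ ≤ gp p x z

variable {p : Y} {δ : ℝ}

theorem Hyp.two (h : Hyp p δ) (x y z w : Y) :
    min (gp p x y) (min (gp p y z) (gp p z w)) - 2 * δ ≤ gp p x w := by
  have h1 := h x y w
  have h2 := h y z w
  rcases le_total (gp p x y) (gp p y w) with h3 | h3
  · rw [min_eq_left h3] at h1
    have hδ : 0 ≤ δ := by
      have := h x x x
      rw [min_self] at this
      linarith
    have := min_le_left (gp p x y) (min (gp p y z) (gp p z w))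
    linarith
  · rw [min_eq_right h3] at h1
    have := min_le_right (gp p x y) (min (gp p y z) (gp p z w))
    linarith

theorem Hyp.nonneg (h : Hyp p δ) : 0 ≤ δ := by
  have := h p p p
  rw [min_self] at this
  linarith

/-- Chains of length at most `2 ^ m`. -/
theorem Hyp.chain (h : Hyp p δ) (ρ : ℝ) (m : ℕ) : ∀ (q : ℕ → Y) (n : ℕ), 1 ≤ n → n ≤ 2 ^ m →
    (∀ i < n, ρ ≤ gp p (q i) (q (i + 1))) → ρ - m * δ ≤ gp p (q 0) (q n) := by
  induction m with
  | zero =>
    intro q n h1 h2 hq
    have : n = 1 := by simp at h2; omega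
    subst this
    simpa using hq 0 (by norm_num)
  | succ m ih =>
    intro q n h1 h2 hq
    have hδ := h.nonneg
    by_cases hn : n ≤ 2 ^ m
    · have := ih q n h1 hn hq
      push_cast
      nlinarith
    · push Not at hn
      have hp : 1 ≤ 2 ^ m := Nat.one_le_two_pow
      have h3 := ih q (2 ^ m) hp le_rfl (fun i hi => hq i (by omega))
      have h4 := ih (fun i => q (2 ^ m + i)) (n - 2 ^ m) (by omega)
        (by rw [pow_succ] at h2; omega) (fun i hi => by
          have := hq (2 ^ m + i) (by omega)
          simpa [add_assoc] using this)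
      simp only [add_zero] at h4
      rw [show 2 ^ m + (n - 2 ^ m) = n by omega] at h4
      have h5 := h (q 0) (q (2 ^ m)) (q n)
      have h6 : ρ - m * δ ≤ min (gp p (q 0) (q (2 ^ m))) (gp p (q (2 ^ m)) (q n)) := le_min h3 h4
      push_cast
      linarith

/-- Quasi-geodesic chains. -/
structure QG (s B : ℝ) (n : ℕ) (q : ℕ → Y) : Prop where
  step : ∀ i < n, dist (q i) (q (i + 1)) ≤ s
  lower : ∀ i j, i ≤ n → j ≤ n → |(i : ℝ) - j| ≤ B * dist (q i) (q j) + B

variable {s B : ℝ} {n : ℕ} {q : ℕ → Y}

theorem dist_le_of_step (hq : ∀ i < n, dist (q i) (q (i + 1)) ≤ s) :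
    ∀ i j, i ≤ j → j ≤ n → dist (q i) (q j) ≤ s * (j - i) := by
  intro i j hij hj
  induction j, hij using Nat.le_induction with
  | base => simp
  | succ j hij ih =>
    have h1 := ih (by omega)
    have h2 := hq j (by omega)
    have h3 := dist_triangle (q i) (q j) (q (j + 1))
    push_cast
    nlinarith

theorem QG.rev (hq : QG s B n q) : QG s B n (fun i => q (n - i)) where
  step i hi := by
    have := hq.step (n - (i + 1)) (by omega)
    rw [show n - (i + 1) + 1 = n - i by omega] at this
    rw [dist_comm]; exact this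
  lower i j hi hj := by
    have := hq.lower (n - i) (n - j) (by omega) (by omega)
    rw [Nat.cast_sub hi, Nat.cast_sub hj] at this
    rw [show (n : ℝ) - i - (n - j) = -((i : ℝ) - j) by ring, abs_neg] at this
    exact this

/-- Some point of the chain is as close to the base point as the Gromov product of the end points
says, up to a logarithmic error. -/
theorem exists_close (h : Hyp p δ) (hs : 0 ≤ s) (hq : ∀ i < n, dist (q i) (q (i + 1)) ≤ s)
    (m : ℕ) (hm : n ≤ 2 ^ m) :
    ∃ i ≤ n, dist p (q i) ≤ gp p (q 0) (q n) + s + m * δ := by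
  have hδ := h.nonneg
  rcases Nat.eq_zero_or_pos n with h0 | h0
  · subst h0
    refine ⟨0, le_rfl, ?_⟩
    rw [gp_self]
    have : 0 ≤ (m : ℝ) * δ := by positivity
    linarith
  · by_contra hcon
    push Not at hcon
    -- the minimum over the chain
    obtain ⟨i0, hi0, hmin⟩ := Finset.exists_min_image (Finset.range (n + 1))
      (fun i => dist p (q i)) ⟨0, by simp⟩
    have h1 := hcon i0 (by simpa [Nat.lt_succ_iff] using hi0)
    have h2 := h.chain (dist p (q i0) - s) m q n h0 hm (fun i hi => by
      have h3 := gp_step p (q i) (q (i + 1))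
      have h4 := hq i hi
      have h5 := hmin i (by simp; omega)
      linarith)
    linarith

/-- A quasi-geodesic chain stays away from the base point, up to a logarithmic error. -/
theorem far (h : Hyp p δ) (hs : 0 ≤ s) (hB : 0 ≤ B) (hq : QG s B n q) (m : ℕ) (hm : n ≤ 2 ^ m)
    (i : ℕ) (hi : i ≤ n) :
    gp p (q 0) (q n) - s - s * (B * (4 * s + 2 * (m + 2) * δ) + B) ≤ dist p (q i) := by
  classical
  have hδ := h.nonneg
  set P := gp p (q 0) (q n) with hP
  have hm0 : (0 : ℝ) ≤ m := Nat.cast_nonneg m
  have hpos : 0 ≤ s * (B * (4 * s + 2 * (m + 2) * δ) + B) := by positivity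
  by_cases hlt : dist p (q i) < P
  swap
  · push Not at hlt
    linarith
  -- first index below `P` from each end
  have key : ∀ (q : ℕ → Y), QG s B n q → P ≤ dist p (q 0) → ∀ i ≤ n, dist p (q i) < P →
      ∃ j ≤ i, P - s ≤ dist p (q j) ∧ dist p (q j) < P ∧
        P - 2 * s - m * δ ≤ gp p (q 0) (q j) := by
    intro q hq hq0 i hi hlt
    have hex : ∃ j, dist p (q j) < P := ⟨i, hlt⟩
    set j := Nat.find hex with hj
    have hj1 : dist p (q j) < P := Nat.find_spec hex
    have hj2 : j ≤ i := Nat.find_le hlt
    have hj3 : ∀ l < j, P ≤ dist p (q l) := fun l hl => by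
      have := Nat.find_min hex hl
      push Not at this
      exact this
    have hj0 : 1 ≤ j := by
      by_contra h0
      have : j = 0 := by omega
      rw [this] at hj1
      linarith
    have hj4 : ∀ l ≤ j, P - s ≤ dist p (q l) := by
      intro l hl
      rcases Nat.lt_or_ge l j with h1 | h1
      · have := hj3 l h1; linarith
      · have hl' : l = j := le_antisymm hl h1
        rw [hl']
        have h2 := hj3 (j - 1) (by omega)
        have h3 := hq.step (j - 1) (by omega)
        rw [show j - 1 + 1 = j by omega] at h3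
        have h4 := dist_triangle p (q j) (q (j - 1))
        rw [dist_comm (q j)] at h4
        linarith
    refine ⟨j, hj2, hj4 j le_rfl, hj1, ?_⟩
    refine h.chain (P - 2 * s) m q j hj0 (by omega) (fun l hl => ?_)
    have h1 := gp_step p (q l) (q (l + 1))
    have h2 := hq.step l (by omega)
    have h3 := hj4 l hl.le
    linarith
  obtain ⟨j1, a1, a2, a3, a4⟩ := key q hq (gp_le_left p (q 0) (q n)) i hi hlt
  obtain ⟨j2, b1, b2, b3, b4⟩ := key (fun i => q (n - i)) hq.rev
    (by simpa using gp_le_right p (q 0) (q n)) (n - i) (by omega)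
    (by simpa [Nat.sub_sub_self hi] using hlt)
  simp only [Nat.sub_zero] at b2 b3 b4
  have hj : j1 ≤ n - j2 := by omega
  have h5 := h.two (q j1) (q 0) (q n) (q (n - j2))
  have h6 : P - 2 * s - m * δ ≤ min (gp p (q j1) (q 0)) (min (gp p (q 0) (q n))
      (gp p (q n) (q (n - j2)))) := by
    refine le_min (by rw [gp_comm]; exact a4) (le_min ?_ b4)
    rw [← hP]
    have : 0 ≤ (m : ℝ) * δ := by positivity
    linarith
  have h7 : dist (q j1) (q (n - j2)) ≤ 4 * s + 2 * (m + 2) * δ := by
    have h8 : P - 2 * s - m * δ - 2 * δ ≤ gp p (q j1) (q (n - j2)) := by linarith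
    unfold gp at h8
    linarith
  have h8 := hq.lower (n - j2) j1 (by omega) (by omega)
  have h9 : ((n - j2 : ℕ) : ℝ) - j1 ≤ B * (4 * s + 2 * (m + 2) * δ) + B := by
    have h10 := le_abs_self (((n - j2 : ℕ) : ℝ) - j1)
    have h11 : B * dist (q (n - j2)) (q j1) ≤ B * (4 * s + 2 * (m + 2) * δ) :=
      mul_le_mul_of_nonneg_left (by rw [dist_comm]; exact h7) hB
    linarith
  have h12 := dist_le_of_step hq.step j1 i a1 hi
  have h13 : (i : ℝ) ≤ ((n - j2 : ℕ) : ℝ) := by
    have : i ≤ n - j2 := by omega
    exact_mod_cast this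
  have h14 : dist (q j1) (q i) ≤ s * (B * (4 * s + 2 * (m + 2) * δ) + B) :=
    h12.trans (mul_le_mul_of_nonneg_left (by linarith) hs)
  have h15 := dist_triangle p (q i) (q j1)
  rw [dist_comm (q i)] at h15
  linarith

/-- Logarithms are small. -/
theorem exists_pow (C : ℝ) (hC : 0 < C) (ε : ℝ) (hε : 0 < ε) : ∃ E : ℝ, ∀ n : ℕ, ∃ m : ℕ,
    n ≤ 2 ^ m ∧ C * m ≤ ε * n + E := by
  have hl2 : 0 < Real.log 2 := Real.log_pos (by norm_num)
  set η : ℝ := ε * Real.log 2 / C with hη
  have hη0 : 0 < η := by positivity
  refine ⟨ε + C + |C * Real.log η / Real.log 2|, fun n => ?_⟩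
  refine ⟨Nat.clog 2 n, Nat.le_pow_clog (by norm_num) n, ?_⟩
  rcases Nat.lt_or_ge n 2 with h | h
  · rw [Nat.clog_of_right_le_one (by omega)]
    simp only [Nat.cast_zero, mul_zero]
    positivity
  · have h1 : 2 ^ (Nat.clog 2 n - 1) < n := by
      have := Nat.pow_pred_clog_lt_self (b := 2) (by norm_num) (x := n) (by omega)
      simpa using this
    set k := Nat.clog 2 n with hk
    have hk1 : 1 ≤ k := Nat.clog_pos (by norm_num) h
    have h2 : ((k : ℝ) - 1) * Real.log 2 ≤ Real.log n := by
      have h3 : ((2 : ℝ) ^ (k - 1)) ≤ n := by exact_mod_cast h1.le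
      have h4 := Real.log_le_log (by positivity) h3
      rw [Real.log_pow, Nat.cast_sub hk1, Nat.cast_one] at h4
      exact h4
    have hn0 : (0 : ℝ) < n := by
      have : 0 < n := by omega
      exact_mod_cast this
    have h5 : Real.log n ≤ η * n - Real.log η := by
      have h6 := Real.log_le_sub_one_of_pos (mul_pos hη0 hn0)
      rw [Real.log_mul hη0.ne' hn0.ne'] at h6
      linarith
    have h7 : C * ((k : ℝ) - 1) ≤ ε * n - C * Real.log η / Real.log 2 := by
      have h8 : (k : ℝ) - 1 ≤ (η * n - Real.log η) / Real.log 2 := by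
        rw [le_div_iff₀ hl2]; linarith
      have h9 := mul_le_mul_of_nonneg_left h8 hC.le
      refine h9.trans (le_of_eq ?_)
      rw [hη]
      field_simp
    have h10 := neg_abs_le (C * Real.log η / Real.log 2)
    linarith

/-- Rays: along a quasi-geodesic chain the points converge at linear speed. -/
theorem ray (h : Hyp p δ) (hs : 0 ≤ s) (hB : 0 < B) (R : ℝ) : ∃ K : ℝ,
    ∀ (n : ℕ) (q : ℕ → Y), QG s B n q → dist p (q 0) ≤ R → ∀ i j, i ≤ j → j ≤ n →
      i / (2 * B) - K ≤ gp p (q i) (q j) := by
  have hδ := h.nonneg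
  set τ : ℝ := 1 / (4 * B) with hτ
  have hτ0 : 0 < τ := by positivity
  obtain ⟨E, hE⟩ := exists_pow (δ + 1) (by linarith) τ hτ0
  have hE0 : 0 ≤ |E| := abs_nonneg _
  refine ⟨|E| + |R| + 1 + s + δ, fun n q hq hR => ?_⟩
  have hR' : dist p (q 0) ≤ |R| := hR.trans (le_abs_self _)
  have hR0 : 0 ≤ |R| := abs_nonneg _
  -- the distance to the base point
  have hd : ∀ l ≤ n, 4 * τ * l - 1 - |R| ≤ dist p (q l) := by
    intro l hl
    have h1 := hq.lower l 0 hl (Nat.zero_le _)
    simp only [Nat.cast_zero, sub_zero, Nat.abs_cast] at h1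
    have h2 := dist_triangle (q l) p (q 0)
    rw [dist_comm (q l) p] at h2
    have h3 : 4 * τ * l ≤ dist (q l) (q 0) + 1 := by
      have : 4 * τ * l = l / B := by rw [hτ]; field_simp
      rw [this, div_le_iff₀ hB]; linarith
    linarith
  -- short pieces
  have short : ∀ i j, i ≤ j → j ≤ 2 * i → j ≤ n →
      3 * τ * i - |E| - |R| - 1 - s ≤ gp p (q i) (q j) := by
    intro i j hij hj2 hj
    have hi0 : 0 ≤ τ * i := by positivity
    rcases Nat.eq_or_lt_of_le hij with h0 | h0
    · subst h0
      rw [gp_self]
      have h1 := hd i hj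
      linarith
    · obtain ⟨m, hm1, hm2⟩ := hE (j - i)
      have h1 := h.chain (4 * τ * i - 1 - |R| - s) m (fun l => q (i + l)) (j - i) (by omega) hm1
        (fun l hl => by
          have h2 := gp_step p (q (i + l)) (q (i + l + 1))
          have h3 := hq.step (i + l) (by omega)
          have h4 := hd (i + l) (by omega)
          have h5 : τ * (i : ℝ) ≤ τ * ((i + l : ℕ) : ℝ) :=
            mul_le_mul_of_nonneg_left (by push_cast; linarith [Nat.cast_nonneg (α := ℝ) l]) hτ0.le
          have h6 : i + (l + 1) = i + l + 1 := by ring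
          simp only [h6]
          linarith)
      simp only [add_zero] at h1
      rw [show i + (j - i) = j by omega] at h1
      have h2 : (m : ℝ) * δ ≤ (δ + 1) * m := by
        have : (0 : ℝ) ≤ m := Nat.cast_nonneg m
        nlinarith
      have h3 : τ * ((j - i : ℕ) : ℝ) ≤ τ * i := by
        apply mul_le_mul_of_nonneg_left _ hτ0.le
        have : j - i ≤ i := by omega
        exact_mod_cast this
      have h4 := le_abs_self E
      linarith
  -- long pieces
  have long : ∀ d i j, j - i ≤ d → i ≤ j → j ≤ n →
      2 * τ * i - (|E| + |R| + 1 + s + δ) ≤ gp p (q i) (q j) := by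
    intro d
    induction d with
    | zero =>
      intro i j h1 h2 h3
      have h4 := short i j h2 (by omega) h3
      have hi0 : 0 ≤ τ * i := by positivity
      linarith
    | succ d ih =>
      intro i j h1 h2 h3
      have hi0 : 0 ≤ τ * i := by positivity
      by_cases hj : j ≤ 2 * i
      · have h4 := short i j h2 hj h3
        linarith
      · push Not at hj
        by_cases hi : 2 * τ * i ≤ δ
        · have h4 := gp_nonneg p (q i) (q j)
          linarith
        · push Not at hi
          have hi1 : 1 ≤ i := by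
            by_contra hcon
            have : i = 0 := by omega
            subst this
            simp at hi
            linarith
          have h4 := ih (2 * i) j (by omega) (by omega) h3
          have h5 := short i (2 * i) (by omega) le_rfl (by omega)
          have h6 := h (q i) (q (2 * i)) (q j)
          have h7 : 2 * τ * i - (|E| + |R| + 1 + s + δ) + δ ≤
              min (gp p (q i) (q (2 * i))) (gp p (q (2 * i)) (q j)) := by
            refine le_min (by linarith) ?_
            push_cast at h4
            linarith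
          linarith
  intro i j hij hj
  have h1 := long (j - i) i j le_rfl hij hj
  have h2 : 2 * τ * i = i / (2 * B) := by rw [hτ]; field_simp; norm_num
  linarith

end gp

end Pool.Agent.Helper58.QS
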