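import Pool.Agent.Helper58.QS.Coarse

set_option autoImplicit false

/-!
# Two quasi-isometric embeddings of the same space have comparable Gromov products
-/

namespace Pool.Agent.Helper58.QS

/-- Quasi-isometric embeddings. -/
structure QIE {Z Y : Type*} [PseudoMetricSpace Z] [PseudoMetricSpace Y] (L A : ℝ) (f : Z → Y) :
    Prop where
  upper : ∀ z z', dist (f z) (f z') ≤ L * dist z z' + A
  lower : ∀ z z', dist z z' ≤ L * (dist (f z) (f z') + A)

/-- Any two points are joined by a quasi-geodesic chain. -/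
def CoarseGeod (Z : Type*) [PseudoMetricSpace Z] (c : ℝ) : Prop :=
  ∀ x y : Z, ∃ (n : ℕ) (w : ℕ → Z), w 0 = x ∧ w n = y ∧ QG c c n w

variable {Z Y Y' : Type*} [PseudoMetricSpace Z] [PseudoMetricSpace Y] [PseudoMetricSpace Y']

theorem QG.map {c L A : ℝ} (hc : 0 ≤ c) (hL : 0 ≤ L) (hA : 0 ≤ A) {f : Z → Y} (hf : QIE L A f)
    {n : ℕ} {w : ℕ → Z} (hw : QG c c n w) :
    QG (L * c + A) (c * L + c * L * A + c) n (fun i => f (w i)) where
  step i hi := by
    have h1 := hf.upper (w i) (w (i + 1))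
    have h2 := mul_le_mul_of_nonneg_left (hw.step i hi) hL
    linarith
  lower i j hi hj := by
    have h1 := hw.lower i j hi hj
    have h2 := mul_le_mul_of_nonneg_left (hf.lower (w i) (w j)) hc
    have h3 : 0 ≤ dist (f (w i)) (f (w j)) := dist_nonneg
    have h4 : 0 ≤ c * L * A := by positivity
    have h5 : 0 ≤ c * L := by positivity
    nlinarith [mul_nonneg h4 h3, mul_nonneg hc h3]

theorem compare {c L A : ℝ} (hc : 1 ≤ c) (hL : 1 ≤ L) (hA : 0 ≤ A) (hZ : CoarseGeod Z c)
    {f : Z → Y} {g : Z → Y'} (hf : QIE L A f) (hg : QIE L A g) (o : Z) (p : Y) (p' : Y') (δ : ℝ)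
    (hp : Hyp p δ) (hp' : Hyp p' δ) :
    ∃ C D : ℝ, 0 ≤ C ∧ 0 ≤ D ∧ ∀ z z' : Z,
      D * (gp p (f z) (f z') + gp p' (g z) (g z')) + D ≤ dist o z →
      D * (gp p (f z) (f z') + gp p' (g z) (g z')) + D ≤ dist o z' →
      gp p' (g z) (g z') ≤ C * gp p (f z) (f z') + C := by
  have hδ := hp.nonneg
  set s : ℝ := L * c + A with hs
  set B : ℝ := c * L + c * L * A + c with hB
  have hs0 : 0 ≤ s := by positivity
  have hB0 : 0 < B := by positivity
  set R : ℝ := max (dist p (f o)) (dist p' (g o)) with hR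
  have hR1 : dist p (f o) ≤ R := le_max_left _ _
  have hR2 : dist p' (g o) ≤ R := le_max_right _ _
  have hR0 : 0 ≤ R := dist_nonneg.trans hR1
  obtain ⟨K1, hK1⟩ := ray hp hs0 hB0 R
  obtain ⟨K2, hK2⟩ := ray hp' hs0 hB0 R
  set K : ℝ := max (max K1 K2) 0 with hK
  have hKK1 : K1 ≤ K := (le_max_left _ _).trans (le_max_left _ _)
  have hKK2 : K2 ≤ K := (le_max_right _ _).trans (le_max_left _ _)
  have hK0 : 0 ≤ K := le_max_right _ _
  set C2 : ℝ := 2 * s * B * δ + L * L * δ + 1 with hC2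
  have hC20 : 0 < C2 := by positivity
  set ε : ℝ := 1 / (8 * c * c * B) with hε
  have hε0 : 0 < ε := by positivity
  obtain ⟨E, hE⟩ := exists_pow C2 hC20 ε hε0
  set C5 : ℝ := 2 * δ + s + s * (B * (4 * s + 4 * δ) + B) + R + A + L * (L * (2 * δ + s + R + A)) +
    ε * (2 * c * c * (2 * B * (K + 3 * δ + 1) + 1) + c) + |E| with hC5
  have hC50 : 0 ≤ C5 := by positivity
  set D : ℝ := c * (2 * B) + c * (2 * B * (K + 3 * δ + 1) + 1) with hD
  have hD0 : 0 ≤ D := by positivity
  refine ⟨2 * L * L + 1 + 2 * C5, D, by positivity, hD0, fun z z' hz hz' => ?_⟩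
  set P1 := gp p (f z) (f z') with hP1
  set P2 := gp p' (g z) (g z') with hP2
  have hP10 : 0 ≤ P1 := gp_nonneg _ _ _
  have hP20 : 0 ≤ P2 := gp_nonneg _ _ _
  set k : ℕ := ⌈2 * B * (P1 + P2 + K + 3 * δ + 1)⌉₊ with hk
  have hk1 : 2 * B * (P1 + P2 + K + 3 * δ + 1) ≤ k := Nat.le_ceil _
  have hk2 : (k : ℝ) ≤ 2 * B * (P1 + P2 + K + 3 * δ + 1) + 1 :=
    (Nat.ceil_lt_add_one (by positivity)).le
  have hkB : P1 + P2 + 3 * δ + 1 ≤ k / (2 * B) - K := by
    have : P1 + P2 + K + 3 * δ + 1 ≤ k / (2 * B) := by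
      rw [le_div_iff₀ (by positivity)]; linarith
    linarith
  have hkD : c * k ≤ D * (P1 + P2) + D := by
    have h1 : c * k ≤ c * (2 * B * (P1 + P2 + K + 3 * δ + 1) + 1) :=
      mul_le_mul_of_nonneg_left hk2 (by linarith)
    have h2 : c * (2 * B * (P1 + P2 + K + 3 * δ + 1) + 1) =
        c * (2 * B) * (P1 + P2) + c * (2 * B * (K + 3 * δ + 1) + 1) := by ring
    have h3 : 0 ≤ c * (2 * B) := by positivity
    have h4 : 0 ≤ c * (2 * B * (K + 3 * δ + 1) + 1) * (P1 + P2) := by positivity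
    have h5 : D * (P1 + P2) + D = c * (2 * B) * (P1 + P2) +
        c * (2 * B * (K + 3 * δ + 1) + 1) * (P1 + P2) + c * (2 * B) +
        c * (2 * B * (K + 3 * δ + 1) + 1) := by rw [hD]; ring
    linarith
  -- the two chains
  have getpt : ∀ z : Z, D * (P1 + P2) + D ≤ dist o z → ∃ x : Z, dist o x ≤ c * k ∧
      k / (2 * B) - K ≤ gp p (f x) (f z) ∧ k / (2 * B) - K ≤ gp p' (g x) (g z) := by
    intro z hz
    obtain ⟨n, w, hw0, hwn, hw⟩ := hZ o z
    have hn : k ≤ n := by
      have h1 := dist_le_of_step hw.step 0 n (Nat.zero_le _) le_rfl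
      rw [hw0, hwn] at h1
      have h2 : c * k ≤ c * n := by
        simp only [Nat.cast_zero, sub_zero] at h1
        linarith
      have h3 := le_of_mul_le_mul_left h2 (by linarith)
      exact_mod_cast h3
    refine ⟨w k, ?_, ?_, ?_⟩
    · have h1 := dist_le_of_step hw.step 0 k (Nat.zero_le _) hn
      rw [hw0] at h1
      simpa using h1
    · have h1 := hK1 n _ (hw.map (by linarith) (by linarith) hA hf) (by simp only [hw0]; exact hR1)
        k n hn le_rfl
      simp only [hwn] at h1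
      linarith
    · have h1 := hK2 n _ (hw.map (by linarith) (by linarith) hA hg) (by simp only [hw0]; exact hR2)
        k n hn le_rfl
      simp only [hwn] at h1
      linarith
  obtain ⟨x, hx0, hx1, hx2⟩ := getpt z hz
  obtain ⟨y, hy0, hy1, hy2⟩ := getpt z' hz'
  have e1 : gp p (f x) (f y) ≤ P1 + 2 * δ := by
    by_contra hcon
    push Not at hcon
    have h1 := hp.two (f z) (f x) (f y) (f z')
    have h2 : min (P1 + 2 * δ + 1) (gp p (f x) (f y)) ≤
        min (gp p (f z) (f x)) (min (gp p (f x) (f y)) (gp p (f y) (f z'))) := by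
      refine le_min ?_ (le_min (min_le_right _ _) ?_)
      · rw [gp_comm p (f z) (f x)]
        refine (min_le_left _ _).trans ?_
        linarith
      · refine (min_le_left _ _).trans ?_
        linarith
    have h3 : P1 + 2 * δ < min (P1 + 2 * δ + 1) (gp p (f x) (f y)) := lt_min (by linarith) hcon
    linarith
  have e2 : P2 - 2 * δ ≤ gp p' (g x) (g y) := by
    have h1 := hp'.two (g x) (g z) (g z') (g y)
    have h2 : P2 ≤ min (gp p' (g x) (g z)) (min (gp p' (g z) (g z')) (gp p' (g z') (g y))) := by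
      refine le_min (by linarith) (le_min le_rfl ?_)
      rw [gp_comm p' (g z') (g y)]
      linarith
    linarith
  -- the chain from `x` to `y`
  obtain ⟨N, v, hv0, hvN, hv⟩ := hZ x y
  have hNk : (N : ℝ) ≤ 2 * c * c * k + c := by
    have h1 := hv.lower N 0 le_rfl (Nat.zero_le _)
    simp only [Nat.cast_zero, sub_zero, Nat.abs_cast] at h1
    rw [hv0, hvN] at h1
    have h2 := dist_triangle y o x
    rw [dist_comm y o] at h2
    have h3 : c * dist y x ≤ c * (c * k + c * k) :=
      mul_le_mul_of_nonneg_left (by linarith) (by linarith)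
    have h4 : c * (c * k + c * k) = 2 * c * c * k := by ring
    linarith
  obtain ⟨m, hm1, hm2⟩ := hE N
  obtain ⟨i, hi, hi1⟩ := exists_close hp hs0
    (hv.map (by linarith) (by linarith) hA hf).step m hm1
  simp only [hv0, hvN] at hi1
  have hi2 := far hp' hs0 hB0.le (hv.map (by linarith) (by linarith) hA hg) m hm1 i hi
  simp only [hv0, hvN] at hi2
  have g1 : dist (f o) (f (v i)) ≤ R + dist p (f (v i)) := by
    have := dist_triangle (f o) p (f (v i))
    rw [dist_comm (f o) p] at this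
    linarith
  have g2 : dist o (v i) ≤ L * (R + dist p (f (v i)) + A) := by
    refine (hf.lower o (v i)).trans ?_
    exact mul_le_mul_of_nonneg_left (by linarith) (by linarith)
  have g3 : dist p' (g (v i)) ≤ R + L * dist o (v i) + A := by
    have h1 := dist_triangle p' (g o) (g (v i))
    have h2 := hg.upper o (v i)
    linarith
  have g4 : dist p' (g (v i)) ≤ R + A + L * (L * (R + (P1 + 2 * δ + s + m * δ) + A)) := by
    have h1 : L * dist o (v i) ≤ L * (L * (R + dist p (f (v i)) + A)) :=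
      mul_le_mul_of_nonneg_left g2 (by linarith)
    have h2 : L * (L * (R + dist p (f (v i)) + A)) ≤
        L * (L * (R + (P1 + 2 * δ + s + m * δ) + A)) := by
      refine mul_le_mul_of_nonneg_left (mul_le_mul_of_nonneg_left ?_ (by linarith)) (by linarith)
      linarith
    linarith
  have g5 : ε * N ≤ (P1 + P2) / 2 + ε * (2 * c * c * (2 * B * (K + 3 * δ + 1) + 1) + c) := by
    have h1 : (N : ℝ) ≤ 2 * c * c * (2 * B * (P1 + P2 + K + 3 * δ + 1) + 1) + c := by
      have : 2 * c * c * k ≤ 2 * c * c * (2 * B * (P1 + P2 + K + 3 * δ + 1) + 1) :=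
        mul_le_mul_of_nonneg_left hk2 (by positivity)
      linarith
    have h2 := mul_le_mul_of_nonneg_left h1 hε0.le
    have h3 : ε * (2 * c * c * (2 * B * (P1 + P2 + K + 3 * δ + 1) + 1) + c) =
        ε * (4 * c * c * B) * (P1 + P2) +
          ε * (2 * c * c * (2 * B * (K + 3 * δ + 1) + 1) + c) := by ring
    have h4 : ε * (4 * c * c * B) = 1 / 2 := by
      rw [hε]; field_simp; norm_num
    rw [h3, h4] at h2
    linarith
  have g6 := le_abs_self E
  have g7 : P2 ≤ L * L * P1 + (P1 + P2) / 2 + C5 := by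
    have h1 : P2 - 2 * δ - s - s * (B * (4 * s + 2 * (m + 2) * δ) + B) ≤
        R + A + L * (L * (R + (P1 + 2 * δ + s + m * δ) + A)) := by linarith
    have h2 : C2 * m = 2 * s * B * δ * m + L * L * δ * m + m := by rw [hC2]; ring
    have hm0 : (0 : ℝ) ≤ m := Nat.cast_nonneg m
    have h3 : P2 ≤ L * L * P1 + (C2 * m - m) + (2 * δ + s + s * (B * (4 * s + 4 * δ) + B) + R + A +
        L * (L * (2 * δ + s + R + A))) := by
      rw [h2]
      linarith
    linarith
  have h1 : 0 ≤ C5 * P1 := mul_nonneg hC50 hP10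
  have h2 : (2 * L * L + 1 + 2 * C5) * P1 + (2 * L * L + 1 + 2 * C5) =
    2 * (L * L * P1) + P1 + 2 * (C5 * P1) + 2 * (L * L) + 1 + 2 * C5 := by ring
  have h3 : 0 ≤ L * L := by positivity
  linarith

end Pool.Agent.Helper58.QS
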