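import Mathlib

set_option autoImplicit false

/-!
# Uniformly regular quasi-isometric embeddings into the symmetric space of `SL(2, ℝ) × SL(2, ℝ)`

The semisimple Lie group is `G = SL(2, ℝ) × SL(2, ℝ)`, `K = SO(2) × SO(2)`, the Cartan subspace
consists of the pairs `t = (t₁, t₂)`, with `exp t = (diag(e^{t₁/2}, e^{-t₁/2}),
diag(e^{t₂/2}, e^{-t₂/2}))`, the closed Weyl chamber is `t₁, t₂ ≥ 0`, the simple roots are
`α₁(t) = t₁` and `α₂(t) = t₂`, and `Θ = {α₁, α₂}` is the set of all simple roots. `P_Θ` is the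
group of pairs of upper triangular matrices, the stabilizer of the point `(∞, ∞)` of
`ℝP¹ × ℝP¹`, and the flag manifold `G / P_Θ` is `ℝP¹ × ℝP¹`, where `ℝP¹ = ℝ ∪ {∞}` with the action
of `SL(2, ℝ)` by Möbius transformations.
-/

open Filter Topology
open scoped MatrixGroups OnePoint

namespace Pool.Agent.Helper58.QS

/-- The semisimple Lie group `G = SL(2, ℝ) × SL(2, ℝ)`. -/
abbrev G : Type := SL(2, ℝ) × SL(2, ℝ)

/-- The flag manifold `G / P_Θ = ℝP¹ × ℝP¹`, where `ℝP¹ = ℝ ∪ {∞}`. -/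
abbrev Flag : Type := OnePoint ℝ × OnePoint ℝ

/-- Membership in `SO(2)`. -/
def IsRotation (k : SL(2, ℝ)) : Prop :=
  (k : Matrix (Fin 2) (Fin 2) ℝ) * (k : Matrix (Fin 2) (Fin 2) ℝ).transpose = 1

/-- The maximal compact subgroup `K = SO(2) × SO(2)` of `G`. -/
def K : Set G := {k | IsRotation k.1 ∧ IsRotation k.2}

/-- The matrix `diag(e^{s/2}, e^{-s/2})`. -/
noncomputable def dia (s : ℝ) : SL(2, ℝ) :=
  ⟨!![Real.exp (s / 2), 0; 0, Real.exp (-(s / 2))], by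
    rw [Matrix.det_fin_two_of, ← Real.exp_add]; simp⟩

/-- The Cartan decomposition: `g = k exp(t) k'` with `k, k' ∈ K` and `t` in the closed Weyl
chamber, that is, `t₁, t₂ ≥ 0`. So `t = κ(g)` is the Cartan projection of `g`; the simple roots
take the values `t₁` and `t₂` on it. (Such a decomposition exists for every `g`, and `t` is
unique.) -/
structure IsKAK (g k : G) (t : ℝ × ℝ) (k' : G) : Prop where
  left : k ∈ K
  right : k' ∈ K
  nonneg₁ : 0 ≤ t.1
  nonneg₂ : 0 ≤ t.2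
  eq : g = k * (dia t.1, dia t.2) * k'

/-- The action of `k ∈ SL(2, ℝ)` on the point `∞` of `ℝP¹ = ℝ ∪ {∞}`. -/
noncomputable def act (k : SL(2, ℝ)) : OnePoint ℝ := (k : GL (Fin 2) ℝ) • (∞ : OnePoint ℝ)

/-- `ξ = U_Θ(g)`: if `g = k exp(κ(g)) k'` and all simple roots are positive on `κ(g)`, then
`U_Θ(g) = k P_Θ`, that is, the point `k (∞, ∞)` of the flag manifold. -/
def IsU (g : G) (ξ : Flag) : Prop :=
  ∃ (k : G) (t : ℝ × ℝ) (k' : G), IsKAK g k t k' ∧ 0 < t.1 ∧ 0 < t.2 ∧ ξ = (act k.1, act k.2)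

/-- `f` (given by representatives, `z ↦ f z · K ∈ G / K`) is a `Θ`-uniformly regular quasi-isometric
embedding with constants `L`, `A`: for `t = κ(f(z)⁻¹ f(z'))` one has
`d_X(f(z) K, f(z') K) = √(t₁² + t₂²) ≤ L d(z, z') + A` and `α(t) ≥ L⁻¹ d(z, z') - A` for the simple
roots `α`. -/
structure IsURQIE {Z : Type*} [MetricSpace Z] (L A : ℝ) (f : Z → G) : Prop where
  upper : ∀ z z' k t k', IsKAK ((f z)⁻¹ * f z') k t k' →
    Real.sqrt (t.1 ^ 2 + t.2 ^ 2) ≤ L * dist z z' + A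
  regular₁ : ∀ z z' k t k', IsKAK ((f z)⁻¹ * f z') k t k' → L⁻¹ * dist z z' - A ≤ t.1
  regular₂ : ∀ z z' k t k', IsKAK ((f z)⁻¹ * f z') k t k' → L⁻¹ * dist z z' - A ≤ t.2

/-- The `Θ`-limit set of `f`: the limits in the flag manifold of the points `U_Θ(f(z_m))` for
sequences `(z_m)` leaving every bounded subset of `Z`. -/
def limitSet {Z : Type*} [MetricSpace Z] (f : Z → G) : Set Flag :=
  {ξ | ∃ (z : ℕ → Z) (u : ℕ → Flag), Tendsto z atTop (Bornology.cobounded Z) ∧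
    (∀ᶠ m in atTop, IsU (f (z m)) (u m)) ∧ Tendsto u atTop (𝓝 ξ)}

/-- Transversality in `ℝP¹ × ℝP¹`: the open `G`-orbit of `Flag × Flag` consists of the pairs
`(ξ, η)` with `ξ₁ ≠ η₁` and `ξ₂ ≠ η₂`. -/
def Transverse (ξ η : Flag) : Prop := ξ.1 ≠ η.1 ∧ ξ.2 ≠ η.2

/-- A transverse sphere: a subset of the flag manifold that is homeomorphic to the sphere `S^n` for
some `n ≥ 1` and whose points are pairwise transverse. -/
def IsTransverseSphere (Λ : Set Flag) : Prop :=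
  (∃ n : ℕ, 1 ≤ n ∧ Nonempty (Λ ≃ₜ Metric.sphere (0 : EuclideanSpace ℝ (Fin (n + 1))) 1)) ∧
    ∀ ξ ∈ Λ, ∀ η ∈ Λ, ξ ≠ η → Transverse ξ η

/-- A quasi-geodesic space: for some constant `c`, any two points are joined by a
`(c, c)`-quasi-geodesic. Every geodesic space (and every length space, and every finitely generated
group with a word metric) has this property. -/
def IsQuasiGeodesicSpace (Z : Type*) [MetricSpace Z] : Prop :=
  ∃ c : ℝ, 1 ≤ c ∧ ∀ x y : Z, ∃ (l : ℝ) (γ : ℝ → Z), 0 ≤ l ∧ γ 0 = x ∧ γ l = y ∧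
    ∀ s ∈ Set.Icc 0 l, ∀ t ∈ Set.Icc 0 l,
      |s - t| / c - c ≤ dist (γ s) (γ t) ∧ dist (γ s) (γ t) ≤ c * |s - t| + c

end Pool.Agent.Helper58.QS
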