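import Pool.Agent.Helper58.QS.Plane

set_option autoImplicit false

open Filter Topology UpperHalfPlane
open scoped MatrixGroups OnePoint

namespace Pool.Agent.Helper58.QS

/-! ### Rotations -/

theorem det_eq (k : SL(2, ℝ)) : k 0 0 * k 1 1 - k 0 1 * k 1 0 = 1 := by
  have := k.det_coe
  rwa [Matrix.det_fin_two] at this

theorem mul_entry (g h : SL(2, ℝ)) (i j : Fin 2) :
    (g * h) i j = g i 0 * h 0 j + g i 1 * h 1 j := by
  rw [Matrix.SpecialLinearGroup.coe_mul, Matrix.mul_apply, Fin.sum_univ_two]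

theorem rotation_entries {k : SL(2, ℝ)} (hk : IsRotation k) :
    k 1 1 = k 0 0 ∧ k 0 1 = - k 1 0 ∧ k 0 0 ^ 2 + k 1 0 ^ 2 = 1 := by
  have hdet := det_eq k
  have h00 := congrFun (congrFun hk 0) 0
  have h01 := congrFun (congrFun hk 0) 1
  have h11 := congrFun (congrFun hk 1) 1
  simp only [Matrix.mul_apply, Fin.sum_univ_two, Matrix.transpose_apply, Matrix.one_apply_eq,
    ne_eq, zero_ne_one, not_false_eq_true, Matrix.one_apply_ne] at h00 h01 h11
  have e1 : k 1 1 = k 0 0 := by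
    linear_combination (-k 1 1) * h00 + k 0 0 * hdet + k 0 1 * h01
  have e2 : k 0 1 = - k 1 0 := by
    linear_combination (-k 1 0) * h00 + k 0 0 * h01 - k 0 1 * hdet
  refine ⟨e1, e2, ?_⟩
  rw [e2] at h00
  linarith

theorem rotation_of_entries {k : SL(2, ℝ)} (h1 : k 1 1 = k 0 0) (h2 : k 0 1 = - k 1 0) :
    IsRotation k := by
  have hdet := det_eq k
  rw [h1, h2] at hdet
  unfold IsRotation
  ext i j
  fin_cases i <;> fin_cases j <;>
    simp [Matrix.mul_apply, Fin.sum_univ_two, h1, h2] <;> linarith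

theorem smul_I_coe (g : SL(2, ℝ)) : ((g • (I : ℍ) : ℍ) : ℂ) =
    (((g 0 0 * g 1 0 + g 0 1 * g 1 1 : ℝ) : ℂ) + Complex.I) /
      ((g 1 0 ^ 2 + g 1 1 ^ 2 : ℝ) : ℂ) := by
  have hdet := det_eq g
  have hne : g 1 0 ^ 2 + g 1 1 ^ 2 ≠ 0 := by
    intro h
    have h1 : g 1 0 = 0 := by nlinarith [sq_nonneg (g 1 0), sq_nonneg (g 1 1)]
    have h2 : g 1 1 = 0 := by nlinarith [sq_nonneg (g 1 0), sq_nonneg (g 1 1)]
    rw [h1, h2] at hdet
    norm_num at hdet
  have h0 : ((g 1 0 : ℝ) : ℂ) * Complex.I + ((g 1 1 : ℝ) : ℂ) ≠ 0 := by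
    intro h
    have h1 := congrArg Complex.re h
    have h2 := congrArg Complex.im h
    simp at h1 h2
    rw [h1, h2] at hne
    norm_num at hne
  rw [coe_specialLinearGroup_apply]
  simp only [Algebra.algebraMap_self, RingHom.id_apply, coe_I]
  rw [div_eq_div_iff h0 (by exact_mod_cast hne)]
  have hdet' : ((g 0 0 : ℝ) : ℂ) * (g 1 1 : ℝ) - (g 0 1 : ℝ) * (g 1 0 : ℝ) = 1 := by
    exact_mod_cast hdet
  push_cast
  have hI : Complex.I ^ 2 = -1 := Complex.I_sq
  linear_combination (Complex.I * (g 1 1 : ℝ) - (g 1 0 : ℝ)) * hdet' - (g 1 0 : ℝ) * hI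

theorem rotation_iff {k : SL(2, ℝ)} : IsRotation k ↔ k • (I : ℍ) = I := by
  constructor
  · intro hk
    obtain ⟨e1, e2, e3⟩ := rotation_entries hk
    ext1
    rw [smul_I_coe, e1, e2]
    have h1 : k 0 0 * k 1 0 + -k 1 0 * k 0 0 = 0 := by ring
    have h2 : k 1 0 ^ 2 + k 0 0 ^ 2 = 1 := by linarith
    rw [h1, h2]
    simp
  · intro h
    have h1 := congrArg UpperHalfPlane.coe h
    rw [smul_I_coe] at h1
    have hdet := det_eq k
    have hne : k 1 0 ^ 2 + k 1 1 ^ 2 ≠ 0 := by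
      intro h
      have h1 : k 1 0 = 0 := by nlinarith [sq_nonneg (k 1 0), sq_nonneg (k 1 1)]
      have h2 : k 1 1 = 0 := by nlinarith [sq_nonneg (k 1 0), sq_nonneg (k 1 1)]
      rw [h1, h2] at hdet
      norm_num at hdet
    rw [div_eq_iff (by exact_mod_cast hne)] at h1
    have h2 := congrArg Complex.re h1
    have h3 := congrArg Complex.im h1
    simp at h2 h3
    norm_cast at h2 h3
    simp at h2 h3
    apply rotation_of_entries
    · linear_combination (-k 0 0) * h3 + (-k 1 0) * h2 + (-k 1 1) * hdet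
    · linear_combination k 0 1 * h3 + k 1 1 * h2 + (-k 1 0) * hdet

theorem rotation_inv {k : SL(2, ℝ)} (hk : IsRotation k) : IsRotation k⁻¹ := by
  rw [rotation_iff] at hk ⊢
  rw [inv_smul_eq_iff, hk]

theorem rotation_mul {k k' : SL(2, ℝ)} (hk : IsRotation k) (hk' : IsRotation k') :
    IsRotation (k * k') := by
  rw [rotation_iff] at hk hk' ⊢
  rw [mul_smul, hk', hk]

theorem dia_entries (s : ℝ) : dia s 0 0 = Real.exp (s / 2) ∧ dia s 0 1 = 0 ∧ dia s 1 0 = 0 ∧
    dia s 1 1 = Real.exp (-(s / 2)) := by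
  refine ⟨?_, ?_, ?_, ?_⟩ <;> simp [dia]

theorem exp_half_sq (s : ℝ) : Real.exp (s / 2) ^ 2 = Real.exp s := by
  rw [← Real.exp_nat_mul]; congr 1; push_cast; ring

theorem dia_smul_I (s : ℝ) : ((dia s • (I : ℍ) : ℍ) : ℂ) = (Real.exp s : ℂ) * Complex.I := by
  obtain ⟨h1, h2, h3, h4⟩ := dia_entries s
  rw [smul_I_coe, h1, h2, h3, h4]
  have e1 : Real.exp (-(s / 2)) ^ 2 = Real.exp (-s) := by
    rw [← neg_div, exp_half_sq]
  have e2 : (Real.exp s : ℂ) * (Real.exp (-s) : ℂ) = 1 := by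
    rw [← Complex.ofReal_mul, ← Real.exp_add]; simp
  rw [div_eq_iff]
  · rw [e1]
    push_cast
    have : (Real.exp (s : ℝ) : ℂ) * ((Real.exp (-s) : ℝ) : ℂ) = 1 := e2
    push_cast at this
    simp only [mul_zero, zero_mul, add_zero, zero_add, ne_eq, OfNat.ofNat_ne_zero,
      not_false_eq_true, zero_pow]
    linear_combination (-Complex.I) * this
  · rw [e1]
    simp

theorem dist_I_dia {s : ℝ} (hs : 0 ≤ s) : dist (I : ℍ) (dia s • (I : ℍ)) = s := by
  have h1 : (dia s • (I : ℍ) : ℍ).re = (I : ℍ).re := by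
    have := congrArg Complex.re (dia_smul_I s)
    simp only [Complex.mul_re, Complex.ofReal_re, Complex.I_re, mul_zero, Complex.ofReal_im,
      Complex.I_im, zero_mul, sub_zero, coe_re] at this
    rw [this]; simp
  have h2 : (dia s • (I : ℍ) : ℍ).im = Real.exp s := by
    have := congrArg Complex.im (dia_smul_I s)
    simpa only [Complex.mul_im, Complex.ofReal_re, Complex.I_re, mul_zero, Complex.ofReal_im,
      Complex.I_im, mul_one, add_zero, zero_add, coe_im] using this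
  rw [dist_comm, dist_of_re_eq h1, h2, I_im, Real.log_exp, Real.log_one, Real.dist_eq, sub_zero,
    abs_of_nonneg hs]

/-- If `g⁻¹ g' = k exp(s) k'`, then `g i` and `g' i` have distance `s`. -/
theorem dist_of_kak {g g' k k' : SL(2, ℝ)} {s : ℝ} (hs : 0 ≤ s) (hk : IsRotation k)
    (hk' : IsRotation k') (h : g⁻¹ * g' = k * dia s * k') :
    dist (g • (I : ℍ)) (g' • (I : ℍ)) = s := by
  have h1 : dist (g • (I : ℍ)) (g' • (I : ℍ)) = dist (I : ℍ) ((g⁻¹ * g') • (I : ℍ)) := by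
    rw [mul_smul, ← dist_smul g (I : ℍ) (g⁻¹ • g' • (I : ℍ)), smul_inv_smul]
  rw [h1, h, mul_smul, mul_smul, rotation_iff.1 hk']
  have h2 : dist (I : ℍ) (k • dia s • (I : ℍ)) = dist (k • (I : ℍ)) (k • dia s • (I : ℍ)) := by
    rw [rotation_iff.1 hk]
  rw [h2, dist_smul, dist_I_dia hs]

/-! ### Existence of the decomposition -/

/-- The rotation by the angle `θ`. -/
noncomputable def rot (θ : ℝ) : SL(2, ℝ) :=
  ⟨!![Real.cos θ, -Real.sin θ; Real.sin θ, Real.cos θ], by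
    rw [Matrix.det_fin_two_of]
    have := Real.cos_sq_add_sin_sq θ
    linarith⟩

theorem rotation_rot (θ : ℝ) : IsRotation (rot θ) := by
  apply rotation_of_entries <;> simp [rot]

theorem rot_entries (θ : ℝ) : rot θ 0 0 = Real.cos θ ∧ rot θ 0 1 = -Real.sin θ ∧
    rot θ 1 0 = Real.sin θ ∧ rot θ 1 1 = Real.cos θ := by
  refine ⟨?_, ?_, ?_, ?_⟩ <;> simp [rot]

theorem exists_kak (g : SL(2, ℝ)) : ∃ (k : SL(2, ℝ)) (s : ℝ) (k' : SL(2, ℝ)),
    IsRotation k ∧ IsRotation k' ∧ 0 ≤ s ∧ g = k * dia s * k' := by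
  set a := g 0 0 with ha
  set b := g 0 1 with hb
  set c := g 1 0 with hc
  set d := g 1 1 with hd
  have hdet : a * d - b * c = 1 := det_eq g
  -- the symmetric matrix `S = g gᵀ`
  set P := a ^ 2 + b ^ 2 with hP
  set Q := a * c + b * d with hQ
  set R := c ^ 2 + d ^ 2 with hR
  have hS : P * R - Q ^ 2 = 1 := by
    rw [hP, hQ, hR]
    linear_combination (a * d - b * c + 1) * hdet
  set w : ℂ := ⟨(P - R) / 2, Q⟩ with hw
  set ρ := ‖w‖ with hρ
  have hρ2 : ρ ^ 2 = ((P - R) / 2) ^ 2 + Q ^ 2 := by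
    rw [hρ, Complex.sq_norm, Complex.normSq_apply]; simp only [hw]; ring
  have hρ0 : 0 ≤ ρ := norm_nonneg _
  set θ := Complex.arg w / 2 with hθ
  have hcos : ρ * Real.cos (2 * θ) = (P - R) / 2 := by
    rw [hθ, mul_div_cancel₀ _ (two_ne_zero)]
    exact Complex.norm_mul_cos_arg w
  have hsin : ρ * Real.sin (2 * θ) = Q := by
    rw [hθ, mul_div_cancel₀ _ (two_ne_zero)]
    exact Complex.norm_mul_sin_arg w
  set m := (P + R) / 2 with hm
  have hPR : 0 < P + R := by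
    have h1 : 0 ≤ P := by positivity
    have h2 : 0 ≤ R := by positivity
    by_contra h
    have h3 : P = 0 := by linarith
    rw [h3] at hS
    nlinarith [sq_nonneg Q]
  have hprod : (m + ρ) * (m - ρ) = 1 := by
    have : (m + ρ) * (m - ρ) = m ^ 2 - ρ ^ 2 := by ring
    rw [this, hρ2, hm]
    linarith
  have hmρ : 0 < m + ρ := by linarith
  set s := Real.log (m + ρ) with hs
  have hes : Real.exp s = m + ρ := Real.exp_log hmρ
  have hes' : Real.exp (-s) = m - ρ := by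
    rw [Real.exp_neg, hes]
    exact inv_eq_of_mul_eq_one_right hprod
  have hs0 : 0 ≤ s := by
    apply Real.log_nonneg
    nlinarith
  obtain ⟨r1, r2, r3, r4⟩ := rot_entries θ
  obtain ⟨d1, d2, d3, d4⟩ := dia_entries s
  have hE : Real.exp (s / 2) ^ 2 = m + ρ := by rw [exp_half_sq, hes]
  have hE' : Real.exp (-(s / 2)) ^ 2 = m - ρ := by rw [← neg_div, exp_half_sq, hes']
  have hs2 := Real.sin_two_mul θ
  have hc2 := Real.cos_two_mul θ
  have hcs := Real.cos_sq_add_sin_sq θ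
  have hg : g • (I : ℍ) = (rot θ * dia s) • (I : ℍ) := by
    ext1
    rw [smul_I_coe, smul_I_coe]
    simp only [mul_entry, r1, r2, r3, r4, d1, d2, d3, d4]
    rw [← ha, ← hb, ← hc, ← hd, ← hQ, ← hR]
    congr 2
    · congr 1
      rw [← hsin, hs2]
      linear_combination (-Real.sin θ * Real.cos θ) * hE + (Real.sin θ * Real.cos θ) * hE'
    · have : R = m - ρ * Real.cos (2 * θ) := by rw [hcos, hm]; ring
      rw [this, hc2]
      linear_combination (-Real.sin θ ^ 2) * hE - Real.cos θ ^ 2 * hE' + (-m - ρ) * hcs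
  refine ⟨rot θ, s, (rot θ * dia s)⁻¹ * g, rotation_rot θ, ?_, hs0, ?_⟩
  · rw [rotation_iff, mul_smul, hg, inv_smul_smul]
  · rw [mul_inv_cancel_left]

theorem exists_isKAK (g : G) : ∃ (k : G) (t : ℝ × ℝ) (k' : G), IsKAK g k t k' := by
  obtain ⟨k₁, s₁, k₁', a1, a2, a3, a4⟩ := exists_kak g.1
  obtain ⟨k₂, s₂, k₂', b1, b2, b3, b4⟩ := exists_kak g.2
  exact ⟨(k₁, k₂), (s₁, s₂), (k₁', k₂'), ⟨a1, b1⟩, ⟨a2, b2⟩, a3, b3, Prod.ext a4 b4⟩

/-! ### Convergence to the boundary -/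

/-- If `g = k exp(s) k'` and `k ∞ = u` is finite, then `g i` is close to `u`. -/
theorem close_to_boundary {g k k' : SL(2, ℝ)} {s : ℝ} (hk : IsRotation k) (hk' : IsRotation k')
    (h : g = k * dia s * k') (u : ℝ) (hu : act k = (u : OnePoint ℝ)) :
    ‖((g • (I : ℍ) : ℍ) : ℂ) - u‖ ≤ 2 * (1 + u ^ 2) * Real.exp (-s) := by
  obtain ⟨e1, e2, e3⟩ := rotation_entries hk
  have hu' : k 1 0 ≠ 0 ∧ u = k 0 0 / k 1 0 := by
    unfold act at hu
    rw [OnePoint.smul_infty_eq_ite] at hu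
    change (if k 1 0 = 0 then (∞ : OnePoint ℝ) else ((k 0 0 / k 1 0 : ℝ) : OnePoint ℝ)) = _ at hu
    by_cases h0 : k 1 0 = 0
    · rw [if_pos h0] at hu
      exact absurd hu (OnePoint.infty_ne_coe u)
    · rw [if_neg h0] at hu
      exact ⟨h0, (OnePoint.coe_injective hu).symm⟩
  obtain ⟨hb, hu'⟩ := hu'
  set a := k 0 0 with ha
  set b := k 1 0 with hb'
  obtain ⟨d1, d2, d3, d4⟩ := dia_entries s
  have hgI : g • (I : ℍ) = (k * dia s) • (I : ℍ) := by
    rw [h, mul_smul, rotation_iff.1 hk']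
  rw [hgI, smul_I_coe]
  simp only [mul_entry, d1, d2, d3, d4, e1, e2]
  rw [← ha, ← hb']
  have hE : Real.exp (s / 2) ^ 2 = Real.exp s := exp_half_sq s
  have hE' : Real.exp (-(s / 2)) ^ 2 = Real.exp (-s) := by rw [← neg_div, exp_half_sq]
  set E := Real.exp s with hEdef
  set E' := Real.exp (-s) with hE'def
  have hEE : E * E' = 1 := by rw [hEdef, hE'def, ← Real.exp_add]; simp
  have hEpos : 0 < E := Real.exp_pos _
  have hE'pos : 0 < E' := Real.exp_pos _
  have n1 : (a * Real.exp (s / 2) + -b * 0) * (b * Real.exp (s / 2) + a * 0) +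
      (a * 0 + -b * Real.exp (-(s / 2))) * (b * 0 + a * Real.exp (-(s / 2))) =
      a * b * (E - E') := by
    linear_combination (a * b) * hE - (a * b) * hE'
  have n2 : (b * Real.exp (s / 2) + a * 0) ^ 2 + (b * 0 + a * Real.exp (-(s / 2))) ^ 2 =
      b ^ 2 * E + a ^ 2 * E' := by
    linear_combination (b ^ 2) * hE + a ^ 2 * hE'
  rw [n1, n2]
  have hden : 0 < b ^ 2 * E + a ^ 2 * E' := by
    have : 0 < b ^ 2 := by positivity
    positivity
  have hdenC : ((b ^ 2 * E + a ^ 2 * E' : ℝ) : ℂ) ≠ 0 := by exact_mod_cast hden.ne'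
  have hbC : (b : ℂ) ≠ 0 := by exact_mod_cast hb
  have hcalc : (((a * b * (E - E') : ℝ) : ℂ) + Complex.I) / ((b ^ 2 * E + a ^ 2 * E' : ℝ) : ℂ) -
      (u : ℂ) = ((-(a / b) * E' : ℝ) + Complex.I) / ((b ^ 2 * E + a ^ 2 * E' : ℝ) : ℂ) := by
    rw [div_sub' hdenC, hu']
    congr 1
    push_cast
    have e3' : (a : ℂ) ^ 2 + (b : ℂ) ^ 2 = 1 := by exact_mod_cast e3
    field_simp
    linear_combination (-(a : ℂ) * E') * e3'
  rw [hcalc, norm_div, Complex.norm_real, Real.norm_of_nonneg hden.le, div_le_iff₀ hden]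
  have hn : ‖((-(a / b) * E' : ℝ) : ℂ) + Complex.I‖ ≤ 1 + |a / b| * E' := by
    refine (norm_add_le _ _).trans ?_
    rw [Complex.norm_real, Complex.norm_I, Real.norm_eq_abs, abs_mul, abs_neg,
      abs_of_pos hE'pos]
    linarith
  refine hn.trans ?_
  rw [← hu']
  have f1 : (1 + u ^ 2) * b ^ 2 = 1 := by
    rw [hu']; field_simp; linarith
  have f2 : (1 + u ^ 2) * a ^ 2 = u ^ 2 := by
    have : a = u * b := by rw [hu']; field_simp
    rw [this]
    linear_combination u ^ 2 * f1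
  have f3 : 2 * (1 + u ^ 2) * E' * (b ^ 2 * E + a ^ 2 * E') = 2 + 2 * (u * E') ^ 2 := by
    linear_combination (2 * E * E') * f1 + (2 * E' ^ 2) * f2 + 2 * hEE
  rw [f3]
  have f4 : |u| * E' = |u * E'| := by rw [abs_mul, abs_of_pos hE'pos]
  rw [f4, ← sq_abs (u * E')]
  nlinarith [sq_nonneg (|u * E'| - 1), abs_nonneg (u * E')]

end Pool.Agent.Helper58.QS
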