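import Pool.Agent.Helper58.QS.Group

set_option autoImplicit false

open Filter Topology UpperHalfPlane
open scoped MatrixGroups OnePoint

namespace Pool.Agent.Helper58.QS

/-! ### The homeomorphism -/

/-- A homeomorphism of the real line whose inverse is not Hölder continuous: `exp(x - 1/x)` for
`x > 0`, extended to an odd function. -/
noncomputable def phi (x : ℝ) : ℝ :=
  if 0 < x then Real.exp (x - 1 / x) else if x < 0 then -Real.exp (-x + 1 / x) else 0

theorem phi_pos {x : ℝ} (hx : 0 < x) : phi x = Real.exp (x - 1 / x) := by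
  unfold phi; rw [if_pos hx]

theorem phi_neg {x : ℝ} (hx : x < 0) : phi x = -Real.exp (-x + 1 / x) := by
  unfold phi; rw [if_neg (not_lt.2 hx.le), if_pos hx]

theorem phi_zero : phi 0 = 0 := by
  unfold phi; simp

theorem phi_odd (x : ℝ) : phi (-x) = -phi x := by
  rcases lt_trichotomy x 0 with h | h | h
  · rw [phi_pos (by linarith), phi_neg h, neg_neg]
    congr 1
    rw [div_neg]; ring
  · subst h; simp [phi_zero]
  · rw [phi_neg (by linarith), phi_pos h]
    congr 2
    rw [div_neg]; ring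

theorem phi_strictMono : StrictMono phi := by
  have pos : ∀ x y : ℝ, 0 < x → x < y → phi x < phi y := by
    intro x y hx hxy
    rw [phi_pos hx, phi_pos (hx.trans hxy)]
    apply Real.exp_lt_exp.2
    have := one_div_lt_one_div_of_lt hx hxy
    linarith
  have p0 : ∀ x : ℝ, 0 < x → 0 < phi x := fun x hx => by
    rw [phi_pos hx]; exact Real.exp_pos _
  have n0 : ∀ x : ℝ, x < 0 → phi x < 0 := fun x hx => by
    rw [phi_neg hx]; have := Real.exp_pos (-x + 1 / x); linarith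
  intro x y hxy
  rcases lt_trichotomy x 0 with h | h | h
  · rcases lt_trichotomy y 0 with h' | h' | h'
    · have := pos (-y) (-x) (by linarith) (by linarith)
      rw [phi_odd, phi_odd] at this
      linarith
    · rw [h', phi_zero]; exact n0 x h
    · exact (n0 x h).trans (p0 y h')
  · subst h
    rw [phi_zero]
    exact p0 y hxy
  · exact pos x y h hxy

theorem phi_surjective : Function.Surjective phi := by
  have pos : ∀ y : ℝ, 0 < y → ∃ x, phi x = y := by
    intro y hy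
    set l := Real.log y with hl
    set r := Real.sqrt (l ^ 2 + 4) with hr
    have hr2 : r ^ 2 = l ^ 2 + 4 := Real.sq_sqrt (by positivity)
    have hr0 : 0 ≤ r := Real.sqrt_nonneg _
    have hlr : 0 < l + r := by
      by_contra h
      push Not at h
      nlinarith
    refine ⟨(l + r) / 2, ?_⟩
    rw [phi_pos (by linarith)]
    have : (l + r) / 2 - 1 / ((l + r) / 2) = l := by
      field_simp
      nlinarith
    rw [this, hl, Real.exp_log hy]
  intro y
  rcases lt_trichotomy y 0 with h | h | h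
  · obtain ⟨x, hx⟩ := pos (-y) (by linarith)
    exact ⟨-x, by rw [phi_odd, hx, neg_neg]⟩
  · exact ⟨0, by rw [phi_zero, h]⟩
  · exact pos y h

/-- The homeomorphism `h` of the circle `ℝP¹ = ℝ ∪ {∞}`. -/
noncomputable def hh : OnePoint ℝ ≃ₜ OnePoint ℝ :=
  (phi_strictMono.orderIsoOfSurjective phi phi_surjective).toHomeomorph.onePointCongr

theorem hh_coe (x : ℝ) : hh (x : OnePoint ℝ) = (phi x : OnePoint ℝ) := rfl

/-- The graph of `h`. -/
def Lam : Set Flag := {ξ | ξ.2 = hh ξ.1}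

theorem isTransverseSphere_Lam : IsTransverseSphere Lam := by
  constructor
  · refine ⟨1, le_rfl, ⟨?_⟩⟩
    have e1 : Lam ≃ₜ OnePoint ℝ :=
      { toFun := fun ξ => ξ.1.1
        invFun := fun x => ⟨(x, hh x), rfl⟩
        left_inv := fun ξ => by
          apply Subtype.ext
          exact Prod.ext rfl ξ.2.symm
        right_inv := fun x => rfl
        continuous_toFun := continuous_fst.comp continuous_subtype_val
        continuous_invFun := by
          apply Continuous.subtype_mk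
          exact continuous_id.prodMk hh.continuous }
    exact e1.trans (onePointEquivSphereOfFinrankEq (ι := Fin 2) (V := ℝ) (by simp))
  · intro ξ hξ η hη hne
    refine ⟨fun h => hne ?_, fun h => hne ?_⟩
    · refine Prod.ext h ?_
      rw [show ξ.2 = hh ξ.1 from hξ, show η.2 = hh η.1 from hη, h]
    · refine Prod.ext ?_ h
      rw [show ξ.2 = hh ξ.1 from hξ, show η.2 = hh η.1 from hη] at h
      exact hh.injective h

/-! ### The two components of a uniformly regular quasi-isometric embedding -/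

section

variable {Z : Type*} [MetricSpace Z]

theorem coarseGeod_of (h : IsQuasiGeodesicSpace Z) : ∃ c : ℝ, 1 ≤ c ∧ CoarseGeod Z c := by
  obtain ⟨c, hc, h⟩ := h
  refine ⟨2 * c + c * c + 1, by nlinarith, fun x y => ?_⟩
  obtain ⟨l, γ, hl, h0, hl', hγ⟩ := h x y
  have mem : ∀ i : ℕ, min (i : ℝ) l ∈ Set.Icc 0 l := fun i =>
    ⟨le_min (Nat.cast_nonneg i) hl, min_le_right _ _⟩
  refine ⟨⌈l⌉₊, fun i => γ (min (i : ℝ) l), ?_, ?_, ?_, ?_⟩
  · simp [hl, h0]
  · change γ (min ((⌈l⌉₊ : ℕ) : ℝ) l) = y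
    rw [min_eq_right (Nat.le_ceil l), hl']
  · intro i hi
    have h1 := (hγ _ (mem i) _ (mem (i + 1))).2
    have h2 : |min (i : ℝ) l - min ((i + 1 : ℕ) : ℝ) l| ≤ 1 := by
      refine (abs_min_sub_min_le_max _ _ _ _).trans ?_
      simp
    have h3 : c * |min (i : ℝ) l - min ((i + 1 : ℕ) : ℝ) l| ≤ c * 1 :=
      mul_le_mul_of_nonneg_left h2 (by linarith)
    nlinarith
  · intro i j hi hj
    have h1 := (hγ _ (mem i) _ (mem j)).1
    have near : ∀ i : ℕ, i ≤ ⌈l⌉₊ → 0 ≤ (i : ℝ) - min (i : ℝ) l ∧ (i : ℝ) - min (i : ℝ) l ≤ 1 := by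
      intro i hi
      constructor
      · have := min_le_left (i : ℝ) l; linarith
      · have h2 : (i : ℝ) ≤ ⌈l⌉₊ := by exact_mod_cast hi
        have h3 := Nat.ceil_lt_add_one hl
        rcases min_choice (i : ℝ) l with h | h <;> rw [h] <;> linarith
    obtain ⟨a1, a2⟩ := near i hi
    obtain ⟨b1, b2⟩ := near j hj
    have h2 : |(i : ℝ) - j| ≤ |min (i : ℝ) l - min (j : ℝ) l| + 1 := by
      rw [abs_le]
      have h3 := le_abs_self (min (i : ℝ) l - min (j : ℝ) l)
      have h4 := neg_abs_le (min (i : ℝ) l - min (j : ℝ) l)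
      constructor <;> linarith
    have h3 : |min (i : ℝ) l - min (j : ℝ) l| ≤
        c * (dist (γ (min (i : ℝ) l)) (γ (min (j : ℝ) l)) + c) := by
      have h4 : |min (i : ℝ) l - min (j : ℝ) l| / c ≤
          dist (γ (min (i : ℝ) l)) (γ (min (j : ℝ) l)) + c := by linarith
      rw [div_le_iff₀ (by linarith)] at h4
      linarith
    have h5 : 0 ≤ dist (γ (min (i : ℝ) l)) (γ (min (j : ℝ) l)) := dist_nonneg
    nlinarith [mul_nonneg (mul_nonneg (by linarith : (0 : ℝ) ≤ c) (by linarith : (0 : ℝ) ≤ c)) h5]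

variable {L A : ℝ} {f : Z → G}

theorem qie₁ (hL : 1 ≤ L) (hf : IsURQIE L A f) : QIE L A (fun z => (f z).1 • (I : ℍ)) where
  upper z z' := by
    obtain ⟨k, t, k', h⟩ := exists_isKAK ((f z)⁻¹ * f z')
    have h1 := dist_of_kak h.nonneg₁ h.left.1 h.right.1 (congrArg Prod.fst h.eq)
    rw [h1]
    refine le_trans ?_ (hf.upper z z' k t k' h)
    exact Real.le_sqrt_of_sq_le (by nlinarith [sq_nonneg t.2])
  lower z z' := by
    obtain ⟨k, t, k', h⟩ := exists_isKAK ((f z)⁻¹ * f z')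
    have h1 := dist_of_kak h.nonneg₁ h.left.1 h.right.1 (congrArg Prod.fst h.eq)
    rw [h1]
    have h2 := hf.regular₁ z z' k t k' h
    have h3 : L⁻¹ * dist z z' ≤ t.1 + A := by linarith
    rwa [inv_mul_le_iff₀ (by linarith)] at h3

theorem qie₂ (hL : 1 ≤ L) (hf : IsURQIE L A f) : QIE L A (fun z => (f z).2 • (I : ℍ)) where
  upper z z' := by
    obtain ⟨k, t, k', h⟩ := exists_isKAK ((f z)⁻¹ * f z')
    have h1 := dist_of_kak h.nonneg₂ h.left.2 h.right.2 (congrArg Prod.snd h.eq)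
    rw [h1]
    refine le_trans ?_ (hf.upper z z' k t k' h)
    exact Real.le_sqrt_of_sq_le (by nlinarith [sq_nonneg t.1])
  lower z z' := by
    obtain ⟨k, t, k', h⟩ := exists_isKAK ((f z)⁻¹ * f z')
    have h1 := dist_of_kak h.nonneg₂ h.left.2 h.right.2 (congrArg Prod.snd h.eq)
    rw [h1]
    have h2 := hf.regular₂ z z' k t k' h
    have h3 : L⁻¹ * dist z z' ≤ t.2 + A := by linarith
    rwa [inv_mul_le_iff₀ (by linarith)] at h3

/-- Points escaping to infinity in `Z` have images escaping to infinity in the hyperbolic plane. -/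
theorem dist_tendsto (hL : 1 ≤ L) {F : Z → ℍ} (hF : QIE L A F) {z : ℕ → Z}
    (hz : Tendsto z atTop (Bornology.cobounded Z)) :
    Tendsto (fun m => dist (I : ℍ) (F (z m))) atTop atTop := by
  have h1 : Tendsto (fun m => dist (z m) (z 0)) atTop atTop :=
    (Metric.tendsto_dist_right_cobounded_atTop (z 0)).comp hz
  have h2 : Tendsto (fun m => L⁻¹ * dist (z m) (z 0) + (-A - dist (I : ℍ) (F (z 0)))) atTop
      atTop := tendsto_atTop_add_const_right _ _ (h1.const_mul_atTop (by positivity))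
  refine tendsto_atTop_mono (fun m => ?_) h2
  have h3 := hF.lower (z m) (z 0)
  have h4 := dist_triangle (F (z m)) (I : ℍ) (F (z 0))
  rw [dist_comm (F (z m)) I] at h4
  have h5 : L⁻¹ * dist (z m) (z 0) ≤ dist (F (z m)) (F (z 0)) + A := by
    rw [inv_mul_le_iff₀ (by linarith)]; exact h3
  linarith

/-- One component: convergence in the closed hyperbolic plane. -/
theorem tendsto_component {F : ℕ → SL(2, ℝ)} {u : ℕ → OnePoint ℝ} {a : ℝ}
    (hd : Tendsto (fun m => dist (I : ℍ) (F m • (I : ℍ))) atTop atTop)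
    (hu : Tendsto u atTop (𝓝 (a : OnePoint ℝ)))
    (hk : ∀ᶠ m in atTop, ∃ (k k' : SL(2, ℝ)) (s : ℝ), IsRotation k ∧ IsRotation k' ∧ 0 ≤ s ∧
      F m = k * dia s * k' ∧ u m = act k) :
    Tendsto (fun m => ((F m • (I : ℍ) : ℍ) : ℂ)) atTop (𝓝 (a : ℂ)) := by
  rw [Metric.tendsto_atTop']
  intro ε hε
  have h1 : ∀ᶠ m in atTop, u m ∈ (fun x : ℝ => (x : OnePoint ℝ)) '' Metric.ball a (min 1 (ε / 2)) := by
    apply hu
    rw [OnePoint.nhds_coe_eq]
    exact image_mem_map (Metric.ball_mem_nhds a (by positivity))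
  have h2 : Tendsto (fun m => 2 * (1 + (|a| + 1) ^ 2) *
      Real.exp (-dist (I : ℍ) (F m • (I : ℍ)))) atTop (𝓝 (2 * (1 + (|a| + 1) ^ 2) * 0)) :=
    (Real.tendsto_exp_neg_atTop_nhds_zero.comp hd).const_mul _
  rw [mul_zero] at h2
  have h3 : ∀ᶠ m in atTop, 2 * (1 + (|a| + 1) ^ 2) *
      Real.exp (-dist (I : ℍ) (F m • (I : ℍ))) < ε / 2 := h2.eventually_lt_const (by linarith)
  obtain ⟨N, hN⟩ := (h1.and (h3.and hk)).exists_forall_of_atTop
  refine ⟨N, fun m hm => ?_⟩
  obtain ⟨⟨α, hα, hαu⟩, h5, k, k', s, r1, r2, r3, r4, r5⟩ := hN m hm.le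
  have hs : dist (I : ℍ) (F m • (I : ℍ)) = s := by
    have := dist_of_kak (g := 1) (g' := F m) r3 r1 r2 (by rw [inv_one, one_mul]; exact r4)
    rwa [one_smul] at this
  rw [hs] at h5
  have h6 := close_to_boundary r1 r2 r4 α (by rw [← r5]; exact hαu.symm)
  rw [Metric.mem_ball, Real.dist_eq] at hα
  have h7 : |α| ≤ |a| + 1 := by
    have h8 := abs_sub_abs_le_abs_sub α a
    have h9 := hα.le.trans (min_le_left _ _)
    linarith
  have h8 : α ^ 2 ≤ (|a| + 1) ^ 2 := by
    rw [← sq_abs α]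
    exact pow_le_pow_left₀ (abs_nonneg _) h7 2
  have h9 : 2 * (1 + α ^ 2) * Real.exp (-s) ≤ 2 * (1 + (|a| + 1) ^ 2) * Real.exp (-s) :=
    mul_le_mul_of_nonneg_right (by linarith) (Real.exp_pos _).le
  rw [Complex.dist_eq]
  calc ‖((F m • (I : ℍ) : ℍ) : ℂ) - a‖ = ‖(((F m • (I : ℍ) : ℍ) : ℂ) - α) + ((α - a : ℝ) : ℂ)‖ := by
        congr 1; push_cast; ring
    _ ≤ ‖((F m • (I : ℍ) : ℍ) : ℂ) - α‖ + ‖((α - a : ℝ) : ℂ)‖ := norm_add_le _ _
    _ < ε := by
        rw [Complex.norm_real, Real.norm_eq_abs]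
        have := hα.trans_le (min_le_right _ _)
        linarith

/-- The limit of the Gromov products. -/
theorem gp_bounds {p q : ℕ → ℍ} {y : ℝ} (hy0 : 0 < y) (hy1 : y ≤ 1)
    (hp : Tendsto (fun m => (p m : ℂ)) atTop (𝓝 ((0 : ℝ) : ℂ)))
    (hq : Tendsto (fun m => (q m : ℂ)) atTop (𝓝 (y : ℂ))) :
    (∀ᶠ m in atTop, gp I (p m) (q m) ≤ 1 - Real.log y) ∧
      ∀ᶠ m in atTop, -1 - Real.log y ≤ gp I (p m) (q m) := by
  have him : ∀ {r : ℕ → ℍ} {a : ℝ}, Tendsto (fun m => (r m : ℂ)) atTop (𝓝 (a : ℂ)) →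
      Tendsto (fun m => (r m).im) atTop (𝓝 0) := by
    intro r a h
    have := (Complex.continuous_im.tendsto _).comp h
    rw [Complex.ofReal_im] at this
    exact this
  have hsq : ∀ {r : ℕ → ℍ} {a : ℝ}, Tendsto (fun m => (r m : ℂ)) atTop (𝓝 (a : ℂ)) →
      Tendsto (fun m => sq (r m)) atTop (𝓝 (1 + a ^ 2)) := by
    intro r a h
    have h1 : Tendsto (fun m => ‖((I : ℍ) : ℂ) - r m‖ ^ 2) atTop
        (𝓝 (‖((I : ℍ) : ℂ) - a‖ ^ 2)) := ((tendsto_const_nhds.sub h).norm.pow 2)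
    have h2 := ((him h).const_mul 2).add h1
    have h3 : 2 * 0 + ‖((I : ℍ) : ℂ) - a‖ ^ 2 = 1 + a ^ 2 := by
      rw [Complex.sq_norm, Complex.normSq_apply, coe_I]
      simp
      ring
    rw [h3] at h2
    exact h2
  have hpp := hsq hp
  have hqq := hsq hq
  have hnum := hpp.mul hqq
  have hdiff : Tendsto (fun m => ‖(p m : ℂ) - q m‖ ^ 2) atTop (𝓝 (y ^ 2)) := by
    have h1 := (hp.sub hq).norm.pow 2
    have h2 : ‖((0 : ℝ) : ℂ) - (y : ℂ)‖ ^ 2 = y ^ 2 := by
      rw [Complex.ofReal_zero, zero_sub, norm_neg, Complex.norm_real, Real.norm_eq_abs, sq_abs]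
    rw [h2] at h1
    exact h1
  have hy2 : 0 < y ^ 2 := by positivity
  have he : (5 : ℝ) < Real.exp 2 := by
    have h9 : Real.exp 2 = Real.exp 1 * Real.exp 1 := by rw [← Real.exp_add]; norm_num
    have h10 := Real.exp_one_gt_d9
    rw [h9]
    nlinarith
  have hey : Real.exp (2 * Real.log y) = y ^ 2 := by
    rw [two_mul, Real.exp_add, Real.exp_log hy0]; ring
  constructor
  · have h1 := (hnum.const_mul 2).div hdiff hy2.ne'
    have h2 : 2 * ((1 + 0 ^ 2) * (1 + y ^ 2)) / y ^ 2 < 5 / y ^ 2 := by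
      apply div_lt_div_of_pos_right _ hy2
      nlinarith
    have hne : ∀ᶠ m in atTop, 0 < ‖(p m : ℂ) - q m‖ ^ 2 := hdiff.eventually_const_lt hy2
    filter_upwards [h1.eventually_lt_const h2, hne] with m hm hm2
    have hne' : (p m : ℂ) ≠ q m := by
      intro h
      rw [h, sub_self] at hm2
      simp at hm2
    have h3 := gp_upper (p m) (q m) hne'
    have h4 : Real.exp (2 * gp I (p m) (q m)) ≤ Real.exp (2 * (1 - Real.log y)) := by
      have h5 : Real.exp (2 * (1 - Real.log y)) = Real.exp 2 / y ^ 2 := by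
        rw [← hey, ← Real.exp_sub]; congr 1; ring
      rw [h5]
      refine h3.trans (hm.le.trans ?_)
      exact div_le_div_of_nonneg_right he.le hy2.le
    have := Real.exp_le_exp.1 h4
    linarith
  · have hden : Tendsto (fun m => 4 * (2 * ((p m).im * (q m).im) + ‖(p m : ℂ) - q m‖ ^ 2)) atTop
        (𝓝 (4 * (2 * (0 * 0) + y ^ 2))) :=
      ((((him hp).mul (him hq)).const_mul 2).add hdiff).const_mul 4
    have h1 := hnum.div hden (by positivity)
    have h2 : 1 / (5 * y ^ 2) < (1 + 0 ^ 2) * (1 + y ^ 2) / (4 * (2 * (0 * 0) + y ^ 2)) := by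
      rw [div_lt_div_iff₀ (by positivity) (by positivity)]
      nlinarith
    filter_upwards [h1.eventually_const_lt h2] with m hm
    have h3 := gp_lower (p m) (q m)
    have h4 : Real.exp (2 * (-1 - Real.log y)) ≤ Real.exp (2 * gp I (p m) (q m)) := by
      have h5 : Real.exp (2 * (-1 - Real.log y)) = 1 / (Real.exp 2 * y ^ 2) := by
        rw [← hey, ← Real.exp_add, one_div, ← Real.exp_neg]; congr 1; ring
      rw [h5]
      refine le_trans ?_ (hm.le.trans h3)
      apply one_div_le_one_div_of_le (by positivity)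
      exact mul_le_mul_of_nonneg_right he.le hy2.le
    have := Real.exp_le_exp.1 h4
    linarith

/-- **Main theorem.** -/
theorem not_limitSet (hZ : IsQuasiGeodesicSpace Z) (hL : 1 ≤ L) (hA : 0 ≤ A)
    (hf : IsURQIE L A f) : limitSet f ≠ Lam := by
  intro hlim
  obtain ⟨c, hc, hZc⟩ := coarseGeod_of hZ
  set F₁ : Z → ℍ := fun z => (f z).1 • (I : ℍ) with hF₁
  set F₂ : Z → ℍ := fun z => (f z).2 • (I : ℍ) with hF₂
  have q₁ : QIE L A F₁ := qie₁ hL hf
  have q₂ : QIE L A F₂ := qie₂ hL hf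
  -- sequences converging to a point of the graph
  have getseq : ∀ x : ℝ, ∃ z : ℕ → Z, Tendsto z atTop (Bornology.cobounded Z) ∧
      Tendsto (fun m => (F₁ (z m) : ℂ)) atTop (𝓝 (x : ℂ)) ∧
      Tendsto (fun m => (F₂ (z m) : ℂ)) atTop (𝓝 ((phi x : ℝ) : ℂ)) := by
    intro x
    have hx : ((x : OnePoint ℝ), (phi x : OnePoint ℝ)) ∈ limitSet f := by
      rw [hlim]
      rfl
    obtain ⟨z, u, hz, hu, hlim'⟩ := hx
    refine ⟨z, hz, ?_, ?_⟩
    · refine tendsto_component (u := fun m => (u m).1) (dist_tendsto hL q₁ hz)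
        ((continuous_fst.tendsto _).comp hlim') ?_
      filter_upwards [hu] with m hm
      obtain ⟨k, t, k', h1, h2, h3, h4⟩ := hm
      exact ⟨k.1, k'.1, t.1, h1.left.1, h1.right.1, h1.nonneg₁, congrArg Prod.fst h1.eq,
        congrArg Prod.fst h4⟩
    · refine tendsto_component (u := fun m => (u m).2) (dist_tendsto hL q₂ hz)
        ((continuous_snd.tendsto _).comp hlim') ?_
      filter_upwards [hu] with m hm
      obtain ⟨k, t, k', h1, h2, h3, h4⟩ := hm
      exact ⟨k.2, k'.2, t.2, h1.left.2, h1.right.2, h1.nonneg₂, congrArg Prod.snd h1.eq,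
        congrArg Prod.snd h4⟩
  obtain ⟨z₀, hz₀, a₀, b₀⟩ := getseq 0
  rw [phi_zero] at b₀
  obtain ⟨C, D, hC, hD, hCD⟩ := compare hc hL hA hZc q₁ q₂ (z₀ 0) (I : ℍ) (I : ℍ) 2
    (hyp_plane _) (hyp_plane _)
  have key : ∀ x : ℝ, 0 < x → x < 1 → -1 - x + 1 / x ≤ C * (2 - Real.log x) := by
    intro x hx0 hx1
    obtain ⟨z, hz, a, b⟩ := getseq x
    have hlogphi : Real.log (phi x) = x - 1 / x := by rw [phi_pos hx0, Real.log_exp]
    have hx2 : 1 < 1 / x := by rw [lt_div_iff₀ hx0]; linarith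
    have hphi0 : 0 < phi x := by rw [phi_pos hx0]; exact Real.exp_pos _
    have hphi1 : phi x ≤ 1 := by
      rw [phi_pos hx0]
      exact Real.exp_le_one_iff.2 (by linarith)
    obtain ⟨u1, l1⟩ := gp_bounds hx0 hx1.le a₀ a
    obtain ⟨u2, l2⟩ := gp_bounds hphi0 hphi1 b₀ b
    rw [hlogphi] at u2 l2
    set Q : ℝ := (1 - Real.log x) + (1 - (x - 1 / x)) with hQ
    have far : ∀ {z : ℕ → Z}, Tendsto z atTop (Bornology.cobounded Z) →
        ∀ᶠ m in atTop, D * Q + D ≤ dist (z₀ 0) (z m) := fun hz =>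
      ((Metric.tendsto_dist_left_cobounded_atTop (z₀ 0)).comp hz).eventually_ge_atTop _
    obtain ⟨m, hm1, hm2, hm3, hm4, hm5⟩ :=
      (u1.and (u2.and (l2.and ((far hz₀).and (far hz))))).exists
    have hsum : gp (I : ℍ) (F₁ (z₀ m)) (F₁ (z m)) + gp (I : ℍ) (F₂ (z₀ m)) (F₂ (z m)) ≤ Q := by
      rw [hQ]; linarith
    have hle : D * (gp (I : ℍ) (F₁ (z₀ m)) (F₁ (z m)) + gp (I : ℍ) (F₂ (z₀ m)) (F₂ (z m))) + D ≤
        D * Q + D := by
      have := mul_le_mul_of_nonneg_left hsum hD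
      linarith
    have h1 := hCD (z₀ m) (z m) (hle.trans hm4) (hle.trans hm5)
    have h2 : C * gp (I : ℍ) (F₁ (z₀ m)) (F₁ (z m)) ≤ C * (1 - Real.log x) :=
      mul_le_mul_of_nonneg_left hm1 hC
    linarith
  set t : ℝ := 2 * C + 4 with ht
  have ht0 : 0 < t := by positivity
  have h1 := key (Real.exp (-t)) (Real.exp_pos _) (by
    rw [← Real.exp_zero]; exact Real.exp_lt_exp.2 (by linarith))
  rw [Real.log_exp, one_div, ← Real.exp_neg, neg_neg] at h1
  have h2 := Real.quadratic_le_exp_of_nonneg ht0.le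
  have h3 : Real.exp (-t) < 1 := by
    rw [← Real.exp_zero]; exact Real.exp_lt_exp.2 (by linarith)
  rw [ht] at h1 h2 h3
  nlinarith

end

end Pool.Agent.Helper58.QS
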