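import Pool.Agent.Helper58.QS.Compare
import Pool.Agent.Helper58.QS.Defs

set_option autoImplicit false

open Filter Topology UpperHalfPlane
open scoped MatrixGroups OnePoint

namespace Pool.Agent.Helper58.QS

/-! ### The hyperbolic plane satisfies the four point condition -/

theorem ptolemy (p x y z : ℍ) : Real.sinh (dist x z / 2) * Real.sinh (dist p y / 2) ≤
    Real.sinh (dist x y / 2) * Real.sinh (dist p z / 2) +
      Real.sinh (dist y z / 2) * Real.sinh (dist p x / 2) := by
  simp only [sinh_half_dist]
  have hx := x.im_pos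
  have hy := y.im_pos
  have hz := z.im_pos
  have hp := p.im_pos
  have e : ∀ a b c d : ℍ, dist (a : ℂ) b / (2 * √(a.im * b.im)) *
      (dist (c : ℂ) d / (2 * √(c.im * d.im))) =
      dist (a : ℂ) b * dist (c : ℂ) d / (4 * (√a.im * √b.im * √c.im * √d.im)) := by
    intro a b c d
    rw [Real.sqrt_mul a.im_pos.le, Real.sqrt_mul c.im_pos.le]
    have h1 := Real.sqrt_pos.2 a.im_pos
    have h2 := Real.sqrt_pos.2 b.im_pos
    have h3 := Real.sqrt_pos.2 c.im_pos
    have h4 := Real.sqrt_pos.2 d.im_pos
    field_simp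
    ring
  rw [e, e, e]
  have h1 := Real.sqrt_pos.2 hx
  have h2 := Real.sqrt_pos.2 hy
  have h3 := Real.sqrt_pos.2 hz
  have h4 := Real.sqrt_pos.2 hp
  rw [show √x.im * √y.im * √p.im * √z.im = √x.im * √z.im * √p.im * √y.im by ring,
    show √y.im * √z.im * √p.im * √x.im = √x.im * √z.im * √p.im * √y.im by ring, ← add_div]
  apply div_le_div_of_nonneg_right _ (by positivity)
  simp only [Complex.dist_eq, ← norm_mul]
  calc ‖((x : ℂ) - z) * (p - y)‖ = ‖((x : ℂ) - y) * (p - z) + (y - z) * (p - x)‖ := by
        congr 1; ring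
    _ ≤ _ := norm_add_le _ _

theorem hyp_plane (p : ℍ) : Hyp p 2 := by
  intro x y z
  have key : dist x z + dist p y ≤ max (dist x y + dist p z) (dist y z + dist p x) + 4 := by
    set M := max (dist x y + dist p z) (dist y z + dist p x) with hM
    have hM1 : dist x y + dist p z ≤ M := le_max_left _ _
    have hM2 : dist y z + dist p x ≤ M := le_max_right _ _
    rcases lt_or_ge (dist x z) 1 with h1 | h1
    · have h2 := dist_triangle4 p z x y
      rw [dist_comm z x] at h2
      linarith
    rcases lt_or_ge (dist p y) 1 with h2 | h2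
    · have h3 := dist_triangle4 x y p z
      rw [dist_comm y p] at h3
      linarith
    have up : ∀ t : ℝ, Real.sinh (t / 2) ≤ Real.exp (t / 2) / 2 := by
      intro t
      rw [Real.sinh_eq]
      have := Real.exp_pos (-(t / 2))
      linarith
    have low : ∀ t : ℝ, 1 ≤ t → (3 / 10) * Real.exp (t / 2) ≤ Real.sinh (t / 2) := by
      intro t ht
      rw [Real.sinh_eq]
      have h3 : Real.exp (-(t / 2)) = Real.exp (t / 2) * Real.exp (-t) := by
        rw [← Real.exp_add]; ring_nf
      have h4 : Real.exp (-t) ≤ 4 / 10 := by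
        have h5 : Real.exp (-t) ≤ Real.exp (-1) := Real.exp_le_exp.2 (by linarith)
        have h6 : Real.exp (-1) < 4 / 10 := by
          rw [Real.exp_neg, inv_lt_comm₀ (Real.exp_pos _) (by norm_num)]
          have := Real.exp_one_gt_d9
          norm_num at this ⊢
          linarith
        linarith
      have h5 := Real.exp_pos (t / 2)
      rw [h3]
      nlinarith
    have h3 := ptolemy p x y z
    have snn : ∀ t : ℝ, 0 ≤ t → 0 ≤ Real.sinh (t / 2) := fun t ht =>
      Real.sinh_nonneg_iff.2 (by linarith)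
    have h4 : Real.sinh (dist x y / 2) * Real.sinh (dist p z / 2) ≤ Real.exp (M / 2) / 4 := by
      calc Real.sinh (dist x y / 2) * Real.sinh (dist p z / 2) ≤
          (Real.exp (dist x y / 2) / 2) * (Real.exp (dist p z / 2) / 2) :=
            mul_le_mul (up _) (up _) (snn _ dist_nonneg) (by positivity)
        _ = Real.exp ((dist x y + dist p z) / 2) / 4 := by
            rw [add_div, Real.exp_add]; ring
        _ ≤ _ := by
            have := Real.exp_le_exp.2 (show (dist x y + dist p z) / 2 ≤ M / 2 by linarith)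
            linarith
    have h5 : Real.sinh (dist y z / 2) * Real.sinh (dist p x / 2) ≤ Real.exp (M / 2) / 4 := by
      calc Real.sinh (dist y z / 2) * Real.sinh (dist p x / 2) ≤
          (Real.exp (dist y z / 2) / 2) * (Real.exp (dist p x / 2) / 2) :=
            mul_le_mul (up _) (up _) (snn _ dist_nonneg) (by positivity)
        _ = Real.exp ((dist y z + dist p x) / 2) / 4 := by
            rw [add_div, Real.exp_add]; ring
        _ ≤ _ := by
            have := Real.exp_le_exp.2 (show (dist y z + dist p x) / 2 ≤ M / 2 by linarith)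
            linarith
    have h6 : (9 / 100) * Real.exp ((dist x z + dist p y) / 2) ≤
        Real.sinh (dist x z / 2) * Real.sinh (dist p y / 2) := by
      calc (9 / 100) * Real.exp ((dist x z + dist p y) / 2) =
          ((3 / 10) * Real.exp (dist x z / 2)) * ((3 / 10) * Real.exp (dist p y / 2)) := by
            rw [add_div, Real.exp_add]; ring
        _ ≤ _ := mul_le_mul (low _ h1) (low _ h2) (by positivity) (snn _ dist_nonneg)
    have h7 : Real.exp ((dist x z + dist p y) / 2) ≤ Real.exp (M / 2 + 2) := by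
      rw [Real.exp_add]
      have h8 : (6 : ℝ) ≤ Real.exp 2 := by
        have h9 : Real.exp 2 = Real.exp 1 * Real.exp 1 := by rw [← Real.exp_add]; norm_num
        have h10 := Real.exp_one_gt_d9
        rw [h9]
        nlinarith
      have h11 := Real.exp_pos (M / 2)
      nlinarith
    have h8 := Real.exp_le_exp.1 h7
    linarith
  have e1 : gp p x z = (dist p x + dist p z - dist x z) / 2 := rfl
  have e2 : gp p x y = (dist p x + dist p y - dist x y) / 2 := rfl
  have e3 : gp p y z = (dist p y + dist p z - dist y z) / 2 := rfl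
  rcases max_choice (dist x y + dist p z) (dist y z + dist p x) with h | h
  · rw [h] at key
    have := min_le_left (gp p x y) (gp p y z)
    linarith
  · rw [h] at key
    have := min_le_right (gp p x y) (gp p y z)
    linarith

/-! ### Gromov products near the boundary -/

/-- Auxiliary quantity. -/
noncomputable def sq (p : ℍ) : ℝ := 2 * p.im + ‖(I : ℂ) - p‖ ^ 2

theorem two_cosh (p : ℍ) : 2 * Real.cosh (dist (I : ℍ) p) = sq p / p.im := by
  have hp := p.im_pos
  rw [cosh_dist, Complex.dist_eq]
  unfold sq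
  simp only [I_im]
  field_simp

theorem sq_pos (p : ℍ) : 0 < sq p := by
  unfold sq
  have := p.im_pos
  positivity

theorem cosh_le_exp {t : ℝ} (ht : 0 ≤ t) : Real.cosh t ≤ Real.exp t := by
  rw [Real.cosh_eq]
  have : Real.exp (-t) ≤ Real.exp t := Real.exp_le_exp.2 (by linarith)
  linarith

theorem exp_le_two_cosh (t : ℝ) : Real.exp t ≤ 2 * Real.cosh t := by
  rw [Real.cosh_eq]
  have := Real.exp_pos (-t)
  linarith

theorem gp_upper (p q : ℍ) (h : (p : ℂ) ≠ q) :
    Real.exp (2 * gp I p q) ≤ 2 * (sq p * sq q) / ‖(p : ℂ) - q‖ ^ 2 := by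
  have hp := p.im_pos
  have hq := q.im_pos
  have h1 : Real.exp (2 * gp I p q) =
      Real.exp (dist I p) * Real.exp (dist I q) / Real.exp (dist p q) := by
    rw [← Real.exp_add, ← Real.exp_sub]
    unfold gp
    congr 1
    ring
  have h2 : 0 < ‖(p : ℂ) - q‖ ^ 2 := by
    have : 0 < ‖(p : ℂ) - q‖ := norm_pos_iff.2 (sub_ne_zero.2 h)
    positivity
  have h3 : ‖(p : ℂ) - q‖ ^ 2 / (2 * p.im * q.im) ≤ Real.exp (dist p q) := by
    refine le_trans ?_ (cosh_le_exp dist_nonneg)
    rw [cosh_dist, Complex.dist_eq]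
    linarith
  have h4 : Real.exp (dist I p) ≤ sq p / p.im := (exp_le_two_cosh _).trans_eq (two_cosh p)
  have h5 : Real.exp (dist I q) ≤ sq q / q.im := (exp_le_two_cosh _).trans_eq (two_cosh q)
  rw [h1]
  calc Real.exp (dist I p) * Real.exp (dist I q) / Real.exp (dist p q)
      ≤ (sq p / p.im * (sq q / q.im)) / (‖(p : ℂ) - q‖ ^ 2 / (2 * p.im * q.im)) := by
        have := sq_pos p
        have := sq_pos q
        apply div_le_div₀ (by positivity) (mul_le_mul h4 h5 (Real.exp_pos _).le (by positivity))
          (by positivity) h3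
    _ = _ := by
        field_simp

theorem gp_lower (p q : ℍ) :
    sq p * sq q / (4 * (2 * (p.im * q.im) + ‖(p : ℂ) - q‖ ^ 2)) ≤ Real.exp (2 * gp I p q) := by
  have hp := p.im_pos
  have hq := q.im_pos
  have h1 : Real.exp (2 * gp I p q) =
      Real.exp (dist I p) * Real.exp (dist I q) / Real.exp (dist p q) := by
    rw [← Real.exp_add, ← Real.exp_sub]
    unfold gp
    congr 1
    ring
  have h3 : Real.exp (dist p q) ≤ (2 * (p.im * q.im) + ‖(p : ℂ) - q‖ ^ 2) / (p.im * q.im) := by
    refine (exp_le_two_cosh _).trans_eq ?_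
    rw [cosh_dist, Complex.dist_eq]
    field_simp
  have h4 : sq p / p.im / 2 ≤ Real.exp (dist I p) := by
    have := cosh_le_exp (dist_nonneg (x := (I : ℍ)) (y := p))
    rw [← two_cosh]; linarith
  have h5 : sq q / q.im / 2 ≤ Real.exp (dist I q) := by
    have := cosh_le_exp (dist_nonneg (x := (I : ℍ)) (y := q))
    rw [← two_cosh]; linarith
  rw [h1]
  calc sq p * sq q / (4 * (2 * (p.im * q.im) + ‖(p : ℂ) - q‖ ^ 2))
      = (sq p / p.im / 2 * (sq q / q.im / 2)) /
        ((2 * (p.im * q.im) + ‖(p : ℂ) - q‖ ^ 2) / (p.im * q.im)) := by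
        have h6 : 0 < 2 * (p.im * q.im) + ‖(p : ℂ) - q‖ ^ 2 := by positivity
        field_simp
        ring
    _ ≤ _ := by
        have := sq_pos p
        have := sq_pos q
        apply div_le_div₀ (by positivity) (mul_le_mul h4 h5 (by positivity) (Real.exp_pos _).le)
          (Real.exp_pos _) h3

end Pool.Agent.Helper58.QS
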